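import Pool.Agent.Helper95.PN.Stmts
import Pool.Agent.Helper14.PW.POE
import Pool.Agent.Helper20.PW.PAN

/-!
# Row REPL: the repulsion in the localized Morawetz inequality
-/

set_option autoImplicit false

namespace Pool.Agent.Helper95.PW

open MeasureTheory Filter Topology
open Pool.Agent.Helper14.PW

/-- a lower bound of the Hessian gives a one sided Lipschitz bound of the gradient -/
theorem repl_mono {g : R3 → ℝ} (hg : ContDiff ℝ (⊤ : ℕ∞) g) {A : ℝ}
    (hH : ∀ (y : R3) (ξ : Fin 3 → ℝ),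
      -(A * ∑ i, ξ i ^ 2) ≤ ∑ i, ∑ l, pd i (pd l g) y * ξ i * ξ l)
    (x y : R3) :
    -(A * ∑ i, (x i - y i) ^ 2) ≤ ∑ l, (pd l g x - pd l g y) * (x l - y l) := by
  have hd : ∀ (l : Fin 3) (t : ℝ), HasDerivAt (fun t : ℝ => pd l g (y + t • (x - y)))
      (∑ i, (x i - y i) * pd i (pd l g) (y + t • (x - y))) t := by
    intro l t
    have h1 : HasFDerivAt (pd l g) (fderiv ℝ (pd l g) (y + t • (x - y))) (y + t • (x - y)) :=
      ((poe_pd_cd hg l).differentiable (by simp) _).hasFDerivAt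
    have h2 : HasDerivAt (fun t : ℝ => y + t • (x - y)) (x - y) t := by
      simpa using ((hasDerivAt_id t).smul_const (x - y)).const_add y
    have h3 := h1.comp_hasDerivAt t h2
    rw [poe_fderiv] at h3
    exact h3
  have hφ : ∀ t : ℝ, HasDerivAt (fun t : ℝ => ∑ l, pd l g (y + t • (x - y)) * (x l - y l))
      (∑ l, (∑ i, (x i - y i) * pd i (pd l g) (y + t • (x - y))) * (x l - y l)) t :=
    fun t => HasDerivAt.fun_sum fun l _ => (hd l t).mul_const _
  have hb : ∀ t : ℝ, -(A * ∑ i, (x i - y i) ^ 2) ≤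
      deriv (fun t : ℝ => ∑ l, pd l g (y + t • (x - y)) * (x l - y l)) t := by
    intro t
    rw [(hφ t).deriv]
    refine (hH (y + t • (x - y)) (fun i => x i - y i)).trans (le_of_eq ?_)
    rw [Finset.sum_comm]
    refine Finset.sum_congr rfl fun l _ => ?_
    rw [Finset.sum_mul]
    refine Finset.sum_congr rfl fun i _ => ?_
    ring
  have hm := mul_sub_le_image_sub_of_le_deriv
    (f := fun t : ℝ => ∑ l, pd l g (y + t • (x - y)) * (x l - y l))
    (fun t => (hφ t).differentiableAt) hb (zero_le_one)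
  have e1 : y + (1 : ℝ) • (x - y) = x := by simp
  have e0 : y + (0 : ℝ) • (x - y) = y := by simp
  simp only [e1, e0] at hm
  rw [sub_zero, mul_one, ← Finset.sum_sub_distrib] at hm
  refine hm.trans (le_of_eq ?_)
  refine Finset.sum_congr rfl fun l _ => ?_
  ring

theorem repl_pt {n : ℕ} {g : R3 → ℝ} (hg : ContDiff ℝ (⊤ : ℕ∞) g) {A : ℝ} (hA : 0 ≤ A)
    (hH : ∀ (y : R3) (ξ : Fin 3 → ℝ),
      -(A * ∑ i, ξ i ^ 2) ≤ ∑ i, ∑ l, pd i (pd l g) y * ξ i * ξ l)
    (k l : Fin n) {e : ℝ} (he : 0 < e) (x : Cf n) :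
    poeh g k l e x ≤ A * poew k l e x := by
  have h := repl_mono hg hH (x k) (x l)
  simp only [Fin.sum_univ_three] at h
  have hq : 0 < poeq k l e x := poeq_pos k l he x
  have hs : 0 < √(poeq k l e x) := Real.sqrt_pos.2 hq
  have hw : 0 < poew k l e x := inv_pos.2 hs
  have hw2 : poew k l e x ^ 2 * poeq k l e x = 1 := by
    unfold poew
    rw [inv_pow, Real.sq_sqrt hq.le]
    exact inv_mul_cancel₀ hq.ne'
  set w := poew k l e x with hwdef
  set q0 := (x k 0 - x l 0) ^ 2 + (x k 1 - x l 1) ^ 2 + (x k 2 - x l 2) ^ 2 with hq0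
  have hq' : poeq k l e x = q0 + e ^ 2 := rfl
  have hle : w ^ 2 * q0 ≤ 1 := by
    rw [hq', mul_add] at hw2
    have : 0 ≤ w ^ 2 * e ^ 2 := by positivity
    linarith
  unfold poeh
  rw [← hwdef]
  set S := (x k 0 - x l 0) * (pd 0 g (x k) - pd 0 g (x l)) +
    (x k 1 - x l 1) * (pd 1 g (x k) - pd 1 g (x l)) +
    (x k 2 - x l 2) * (pd 2 g (x k) - pd 2 g (x l)) with hS
  have hS' : -S ≤ A * q0 := by
    rw [hS]
    linarith
  calc -S * w ^ 3 ≤ A * q0 * w ^ 3 := mul_le_mul_of_nonneg_right hS' (by positivity)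
    _ = A * w * (w ^ 2 * q0) := by ring
    _ ≤ A * w * 1 := mul_le_mul_of_nonneg_left hle (by positivity)
    _ = A * w := mul_one _

theorem repl_pair (h1 : ST_IBP) {n : ℕ} {g : R3 → ℝ} (hg : ContDiff ℝ (⊤ : ℕ∞) g) {A : ℝ}
    (hA : 0 ≤ A)
    (hH : ∀ (y : R3) (ξ : Fin 3 → ℝ),
      -(A * ∑ i, ξ i ^ 2) ≤ ∑ i, ∑ l, pd i (pd l g) y * ξ i * ξ l)
    (k l : Fin n) {e : ℝ} (he : 0 < e) {v : Cf n → ℝ}
    (hv : ContDiff ℝ (⊤ : ℕ∞) v) (hvc : HasCompactSupport v) :
    -(A / 2) * (∫ x, poew k l e x * (v x * v x)) ≤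
      ∫ x, poew k l e x * (Pg g v x * v x) := by
  have hPAN : ST_PAN := Pool.Agent.Helper20.PW.st_PAN h1
  obtain ⟨hp, hpc⟩ := poe_sm Pool.Agent.Helper2.PW.st_STB hg hv hvc
  have hW : ContDiff ℝ (⊤ : ℕ∞) (poew k l e) := poew_cd k l he
  have j := poe_id2 hPAN hg hv hvc hp rfl hW
  have I3 : Integrable (fun x => poeD g (poew k l e) x * v x ^ 2) :=
    poe_int2 hvc hv.continuous (poe_Dc hg hW)
  have I4 : Integrable (fun x => poew k l e x * v x ^ 2) :=
    poe_int2 hvc hv.continuous hW.continuous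
  have j3 : ∫ x, poeD g (poew k l e) x * v x ^ 2 ≤ A * ∫ x, poew k l e x * v x ^ 2 := by
    rw [← integral_const_mul]
    refine integral_mono I3 (I4.const_mul _) fun x => ?_
    show poeD g (poew k l e) x * v x ^ 2 ≤ A * (poew k l e x * v x ^ 2)
    rw [poeD_w k l he x, ← mul_assoc]
    exact mul_le_mul_of_nonneg_right (repl_pt hg hA hH k l he x) (sq_nonneg (v x))
  have a1 : ∫ x, poew k l e x * (Pg g v x * v x) = ∫ x, poew k l e x * Pg g v x * v x := by
    congr 1
    funext x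
    ring
  have a2 : ∫ x, poew k l e x * (v x * v x) = ∫ x, poew k l e x * v x ^ 2 := by
    congr 1
    funext x
    ring
  rw [a1, a2]
  linarith

theorem st_REPL (h1 : ST_IBP) (h2 : ST_INT) (_h3 : ST_HA2) : ST_REPL := by
  intro n g A u hg _ hA hH hu
  have key : ∀ s, -(A / 2) * (∫ x, rep x * u s x ^ 2) ≤
      ∫ x, rep x * (Pg g (u s) x * u s x) := by
    intro s
    obtain ⟨hv, hvc⟩ := hu s
    obtain ⟨hp, hpc⟩ := poe_sm Pool.Agent.Helper2.PW.st_STB hg hv hvc
    have e2 : (fun x => rep x * u s x ^ 2) = fun x => rep x * (u s x * u s x) := by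
      funext x
      ring
    rw [e2]
    have J2 := (h2 n _ _ hp hpc hv hvc).2.1
    have J3 := (h2 n _ _ hv hvc hv hvc).2.1
    have c2 : Continuous (fun x => Pg g (u s) x * u s x) := hp.continuous.mul hv.continuous
    have c3 : Continuous (fun x => u s x * u s x) := hv.continuous.mul hv.continuous
    rw [poe_sum c2 J2, poe_sum c3 J3, Finset.mul_sum]
    refine Finset.sum_le_sum fun k _ => ?_
    rw [Finset.mul_sum]
    refine Finset.sum_le_sum fun l _ => ?_
    split_ifs with hkl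
    · have t2 := poe_lim hkl.ne c2 (poe_pi hkl c2 J2)
      have t3 := (poe_lim hkl.ne c3 (poe_pi hkl c3 J3)).const_mul (-(A / 2))
      refine le_of_tendsto_of_tendsto t3 t2 (Filter.Eventually.of_forall fun m => ?_)
      have he : (0 : ℝ) < 1 / ((m : ℝ) + 1) := by positivity
      exact repl_pair h1 hg hA hH k l he hv hvc
    · simp
  unfold pair
  have hsum := Finset.sum_le_sum fun (s : Fin n → Fin 2) (_ : s ∈ Finset.univ) => key s
  rw [← Finset.mul_sum] at hsum
  refine le_trans (le_of_eq ?_) hsum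
  ring

end Pool.Agent.Helper95.PW
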